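import Mathlib

open Set Filter Topology
open FreeGroup hiding map_mul map_inv map_one

namespace Pool.Agent.Results.MP_769d7c_al.NotBo

/-- The ball `E_F[x] = {x} ∪ F x`. -/
def ball {G : Type} [Group G] (F : Finset G) (x : G) : Set G :=
  insert x ((fun g => g * x) '' (F : Set G))

/-- Boundedly oscillating functions. -/
def BO {G : Type} [Group G] (f : G → ℝ) : Prop :=
  ∃ C > 0, ∀ F : Finset G, ∃ B : Finset G, ∀ x ∉ B, Metric.diam (f '' ball F x) < C

/-- Slowly oscillating functions. -/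
def SO {G : Type} [Group G] (f : G → ℝ) : Prop :=
  ∀ F : Finset G, ∀ ε > 0, ∃ B : Finset G, ∀ x ∉ B, Metric.diam (f '' ball F x) < ε

/-- Bounded outside a finite set. -/
def BddOff {G : Type} (f : G → ℝ) : Prop := ∃ B : Finset G, ∃ M : ℝ, ∀ x ∉ B, |f x| ≤ M

def BoBounded (G : Type) [Group G] : Prop := ∀ f : G → ℝ, BO f → BddOff f

def SoBounded (G : Type) [Group G] : Prop := ∀ f : G → ℝ, SO f → BddOff f

section so
variable {G : Type} [Group G] {g : G → ℝ}

lemma so1 (hg : SO g) (h : G) {ε : ℝ} (he : 0 < ε) : {x | ε ≤ |g (h * x) - g x|}.Finite := by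
  obtain ⟨B, hB⟩ := hg {h} ε he
  refine B.finite_toSet.subset fun x hx => by_contra fun hx' => ?_
  have hf : (g '' ball {h} x).Finite := (((Finset.finite_toSet _).image _).insert _).image _
  have := Metric.dist_le_diam_of_mem hf.isBounded (x := g (h * x)) (y := g x)
    ⟨_, Or.inr ⟨h, by simp, rfl⟩, rfl⟩ ⟨_, Or.inl rfl, rfl⟩
  rw [Real.dist_eq] at this
  exact absurd (hB x hx') (not_lt.2 (le_trans hx this))

lemma so2 (hg : SO g) (h : G) : {x | g (h * x) ≠ g x}.Countable := by
  refine (countable_iUnion fun n : ℕ => (so1 hg h (Nat.one_div_pos_of_nat (n := n))).countable).mono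
    fun x hx => ?_
  obtain ⟨n, hn⟩ := exists_nat_one_div_lt (abs_pos.2 (sub_ne_zero.2 hx))
  exact mem_iUnion.2 ⟨n, hn.le⟩

lemma pre {Z : Set G} (hZ : Z.Countable) {u : ℝ → G} (hu : Function.Injective u) (x : G) :
    {i | u i * x ∈ Z}.Countable :=
  hZ.preimage_of_injOn (f := fun i => u i * x) fun _ _ _ _ h => hu (mul_right_cancel h)

lemma ex2 {A B : Set ℝ} (hA : A.Countable) (hB : B.Countable) : ∃ i, i ∉ A ∧ i ∉ B := by
  by_contra h
  push Not at h
  exact Cardinal.not_countable_real ((hA.union hB).mono fun i _ => by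
    by_cases hi : i ∈ A
    exacts [Or.inl hi, Or.inr (h i hi)])

lemma lemA (hg : SO g) {b : ℕ → G} (hb : Function.Injective b) {v : ℝ → G}
    (hv : Function.Injective v) (hc : ∀ j i, b j * v i = v i * b j) (x : G) :
    {i | ¬ Tendsto (fun j => g (b j * x)) atTop (𝓝 (g (v i * x)))}.Countable := by
  refine (pre (countable_iUnion fun j => so2 hg (b j)) hv x).mono fun i hi => by_contra fun h => hi ?_
  simp only [mem_iUnion, mem_ofPred_eq, not_exists, not_not] at h
  rw [← Nat.cofinite_eq_atTop, Metric.tendsto_nhds]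
  intro ε he
  rw [eventually_cofinite]
  refine ((so1 hg (v i) he).preimage (f := fun j => b j * x)
    fun _ _ _ _ h => hb (mul_right_cancel h)).subset fun j hj => ?_
  simp only [mem_ofPred_eq, not_lt, Real.dist_eq, mem_preimage] at hj ⊢
  rwa [← mul_assoc, ← hc, mul_assoc, h, abs_sub_comm]

def Val (g : G → ℝ) (u : ℝ → G) (x : G) (c : ℝ) : Prop := {i | g (u i * x) ≠ c}.Countable

lemma val1 (hg : SO g) {u v : ℝ → G} (hu : Function.Injective u) (hv : Function.Injective v)
    (hc : ∀ j i, u j * v i = v i * u j) (x : G) : ∃ c, Val g v x c ∧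
      Tendsto (fun j : ℕ => g (u j * x)) atTop (𝓝 c) := by
  have h := lemA hg (b := fun j : ℕ => u j) (hu.comp Nat.cast_injective) hv (fun j i => hc _ _) x
  obtain ⟨i, hi, -⟩ := ex2 h h
  exact ⟨_, h.mono fun k hk hk' => hk (tendsto_nhds_unique hk' (not_not.1 hi)), not_not.1 hi⟩

lemma val2 (hg : SO g) {u v : ℝ → G} (hu : Function.Injective u) (hv : Function.Injective v)
    (hc : ∀ j i, u j * v i = v i * u j) {x : G} {c : ℝ} (h : Val g u x c) : Val g v x c := by
  have hi : {i | g (u i * x) ≠ c}ᶜ.Infinite := fun hf => by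
    obtain ⟨i, h1, h2⟩ := ex2 h hf.countable
    exact h2 h1
  let s := hi.natEmbedding
  refine (lemA hg (b := fun j => u (s j)) (hu.comp (Subtype.val_injective.comp s.injective)) hv
    (fun j i => hc _ _) x).mono fun i hi' => ?_
  intro h'
  apply hi'
  have : (fun j => g (u (s j) * x)) = fun _ => c := funext fun j => not_not.1 (s j).2
  rw [this] at h'
  exact tendsto_nhds_unique h' tendsto_const_nhds

lemma val3 (hg : SO g) {u : ℝ → G} (hu : Function.Injective u) {a : G}
    (hc : ∀ j, u j * a = a * u j) {x : G} {c : ℝ} (h : Val g u x c) : Val g u (a * x) c := by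
  refine (h.union (pre (so2 hg a) hu x)).mono fun i hi => by_contra fun h' => hi ?_
  simp only [mem_union, mem_ofPred_eq, not_or, not_not] at h'
  rw [← mul_assoc, hc, mul_assoc, h'.2, h'.1]

lemma fin1 (hg : SO g) {u v : ℝ → G} (hu : Function.Injective u) (hv : Function.Injective v)
    (hc : ∀ j i, u j * v i = v i * u j) {c : ℝ} (h : ∀ x, Val g v x c) : BddOff g := by
  have hZ : {x | g x ≠ c}.Countable := by
    refine (countable_iUnion fun j : ℕ => so2 hg (u j)).mono fun x hx => by_contra fun h' => hx ?_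
    simp only [mem_iUnion, mem_ofPred_eq, not_exists, not_not] at h'
    obtain ⟨d, h1, h2⟩ := val1 hg hu hv hc x
    obtain ⟨i, h3, h4⟩ := ex2 h1 (h x)
    simp only [h'] at h2
    rw [tendsto_nhds_unique tendsto_const_nhds h2, ← not_not.1 h3, not_not.1 h4]
  by_cases hW : {x | 1 ≤ |g x - c|}.Finite
  · refine ⟨hW.toFinset, |c| + 1, fun x hx => ?_⟩
    simp only [Finite.mem_toFinset, mem_ofPred_eq, not_le] at hx
    have := abs_add_le (g x - c) c
    rw [sub_add_cancel] at this
    linarith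
  · exfalso
    refine Cardinal.not_countable_real (((hZ.prod hZ).image fun p => p.1 * p.2⁻¹).preimage_of_injOn
      hu.injOn |>.mono fun i _ => ?_)
    obtain ⟨x, h1, h2⟩ := Infinite.exists_notMem_finite hW (so1 hg (u i) one_pos)
    simp only [mem_ofPred_eq, not_le] at h1 h2
    refine ⟨(u i * x, x), ⟨fun h3 => ?_, fun h3 => ?_⟩, by simp⟩
    · rw [h3, abs_sub_comm] at h2; linarith
    · simp only at h3; rw [h3] at h1; norm_num at h1

end so

open Classical

section fr
variable {α : Type}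

noncomputable def lst (q : FreeGroup α) : Option α := q.toWord.getLast?.map Prod.fst

lemma lst1 (a : α × Bool) (q : FreeGroup α) (h1 : q ≠ 1) (h2 : mk [a] * q ≠ 1) :
    lst (mk [a] * q) = lst q := by
  have e : (mk [a] * q).toWord = reduce (a :: q.toWord) := by
    conv_lhs => rw [← mk_toWord (x := q), mul_mk, toWord_mk]
    rfl
  rw [Ne, ← toWord_eq_nil_iff] at h1 h2
  unfold lst
  rw [e, reduce.cons, reduce_toWord] at h2 ⊢
  rcases hw : q.toWord with _ | ⟨hd, tl⟩
  · exact absurd hw h1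
  · rw [hw] at h2
    simp only at h2 ⊢
    split_ifs at h2 ⊢
    · rcases tl with _ | ⟨b, tl⟩
      · exact absurd rfl h2
      · rw [List.getLast?_cons_cons]
    · rw [List.getLast?_cons_cons]

lemma lemK (L : List (α × Bool)) (q : FreeGroup α) (h : lst (mk L * q) ≠ lst q) :
    ∃ u, u <:+ L ∧ q = (mk u)⁻¹ := by
  induction L with
  | nil => exact absurd (by rw [← one_eq_mk, one_mul]) h
  | cons a L ih =>
    by_cases h' : lst (mk L * q) = lst q
    · have e : mk (a :: L) * q = mk [a] * (mk L * q) := by rw [← mul_assoc, mul_mk]; rfl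
      by_cases h1 : mk L * q = 1
      · exact ⟨L, List.suffix_cons _ _, eq_inv_of_mul_eq_one_right h1⟩
      by_cases h2 : mk (a :: L) * q = 1
      · exact ⟨_, List.suffix_refl _, eq_inv_of_mul_eq_one_right h2⟩
      exact absurd (by rw [e, lst1 a _ h1 (e ▸ h2), h']) h
    · obtain ⟨u, h1, h2⟩ := ih h'
      exact ⟨u, h1.trans (List.suffix_cons _ _), h2⟩

lemma suf (L : List (α × Bool)) : {u | u <:+ L}.Finite :=
  (List.finite_toSet L.tails).subset fun u hu => (List.mem_tails _ _).2 hu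

lemma finK (r : FreeGroup α) : {q | lst (r * q) ≠ lst q}.Finite :=
  ((suf r.toWord).image fun u => (mk u)⁻¹).subset fun q hq => by
    obtain ⟨u, h1, h2⟩ := lemK r.toWord q (by rwa [mk_toWord])
    exact ⟨u, h1, h2.symm⟩

lemma lstm {L : List (α × Bool)} {z : α} (h : lst (mk L) = some z) : ∃ y ∈ L, y.1 = z := by
  obtain ⟨y, h1, h2⟩ := Option.map_eq_some_iff.1 h
  exact ⟨y, (Red.sublist reduce.red).subset (List.mem_of_getLast? h1), h2⟩

lemma lstn {q : FreeGroup α} (h : lst q = none) : q = 1 := by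
  simpa [lst] using h

end fr

abbrev Q := FreeGroup (ℕ × ℝ)

def H (n : ℕ) : Subgroup Q where
  carrier := {r | ∃ L : List ((ℕ × ℝ) × Bool), (∀ z ∈ L, z.1.1 = n ∨ z.1.1 = n + 1) ∧ r = mk L}
  one_mem' := ⟨[], by simp, rfl⟩
  mul_mem' := by
    rintro _ _ ⟨L, h, rfl⟩ ⟨M, k, rfl⟩
    exact ⟨L ++ M, fun z hz => (List.mem_append.1 hz).elim (h z) (k z), mul_mk⟩
  inv_mem' := by
    rintro _ ⟨L, h, rfl⟩
    refine ⟨invRev L, fun z hz => ?_, inv_mk⟩
    simp only [invRev, List.mem_reverse, List.mem_map] at hz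
    obtain ⟨y, hy, rfl⟩ := hz
    exact h y hy

abbrev X := Σ n : ℕ, (Q ⧸ H n) × ℝ

def sm (q : Q) (z : X) : X := ⟨z.1, q • z.2.1, z.2.2⟩

lemma sm1 (z : X) : sm 1 z = z := by simp [sm]

lemma smm (p q : Q) (z : X) : sm (p * q) z = sm p (sm q z) := by
  simp only [sm, mul_smul]; rfl

def φ : Q →* MulAut (FreeGroup X) where
  toFun q := freeGroupCongr ⟨sm q, sm q⁻¹, fun z => by rw [← smm, inv_mul_cancel, sm1],
    fun z => by rw [← smm, mul_inv_cancel, sm1]⟩
  map_one' := MulEquiv.toMonoidHom_injective (FreeGroup.ext_hom _ _ fun z => by simp [sm1])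
  map_mul' p q := MulEquiv.toMonoidHom_injective (FreeGroup.ext_hom _ _ fun z => by simp [smm])

lemma phm (q : Q) (L) : φ q (mk L) = mk (L.map fun x => (sm q x.1, x.2)) := rfl

noncomputable def lam (q : Q) : ℝ := (lst q).elim 0 fun z => (z.1 : ℝ)

noncomputable def pr (z : X) : ℝ := if z.2.1 = ((1 : Q) : Q ⧸ H z.1) then z.1 else lam z.2.1.out⁻¹

noncomputable def F (k : FreeGroup X) (q : Q) : ℝ := (lst k).elim (lam q) pr

lemma lemP (n : ℕ) (i : ℝ) (q : Q) (hq : q ≠ 1) : |pr ⟨n, ((q⁻¹ : Q) : Q ⧸ H n), i⟩ - lam q| ≤ 1 := by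
  unfold pr
  split_ifs with h
  · obtain ⟨L, hL, rfl⟩ : q ∈ H n := by simpa using QuotientGroup.eq.1 h
    rcases hz : lst (mk L) with _ | z
    · exact absurd (lstn hz) hq
    · obtain ⟨y, hy, rfl⟩ := lstm hz
      rcases hL y hy with e | e <;> simp [lam, hz, e]
  · obtain ⟨⟨_, L, hL, rfl⟩, hr⟩ := QuotientGroup.mk_out_eq_mul (H n) q⁻¹
    obtain ⟨M, hM, e⟩ := (H n).inv_mem ⟨L, hL, rfl⟩
    simp only [hr, mul_inv_rev, inv_inv, e]
    have : lst (mk M * q) = lst q := by
      by_contra h'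
      obtain ⟨u, h1, h2⟩ := lemK _ _ h'
      refine h (QuotientGroup.eq.2 ?_)
      rw [inv_inv, mul_one, h2]
      exact (H n).inv_mem ⟨u, fun z hz => hM z (h1.subset hz), rfl⟩
    simp [lam, this]

lemma lemU (w : FreeGroup X) (p p' : Q) : {q | 1 < |F (φ (p * q)⁻¹ w) (p' * q) - lam q|}.Finite := by
  refine ((finK p').union ((List.finite_toSet w.toWord).biUnion fun z _ =>
    (finK (z.1.2.1.out⁻¹ * p)).union (finite_singleton (z.1.2.1.out⁻¹ * p)⁻¹))).subset
    fun q hq => by_contra fun h => not_le.2 (mem_ofPred_eq ▸ hq :) ?_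
  simp only [mem_union, mem_ofPred_eq, mem_iUnion, not_or, not_not, not_exists,
    mem_singleton_iff] at h
  unfold F
  rcases hz : lst (φ (p * q)⁻¹ w) with _ | z
  · simp [lam, h.1]
  · rw [← mk_toWord (x := w), phm] at hz
    obtain ⟨y, hy, rfl⟩ := lstm hz
    obtain ⟨⟨⟨n, C, i⟩, s⟩, hy', rfl⟩ := List.mem_map.1 hy
    obtain ⟨h1, h2⟩ := h.2 _ hy'
    have := lemP n i (C.out⁻¹ * p * q) fun e => h2 (eq_inv_of_mul_eq_one_right e)
    have e : (((C.out⁻¹ * p * q)⁻¹ : Q) : Q ⧸ H n) = (p * q)⁻¹ • C := by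
      conv_rhs => rw [← C.out_eq']
      rw [MulAction.Quotient.smul_mk]; congr 1; simp [mul_assoc]
    rw [e, lam, h1] at this
    exact this

abbrev G := FreeGroup X ⋊[φ] Q

noncomputable def f (x : G) : ℝ := F (φ x.right⁻¹ x.left) x.right

lemma lemM (h : G) : {x | 2 < |f (h * x) - f x|}.Finite := by
  refine ((suf h.left.toWord).biUnion fun u _ => ((lemU (mk u)⁻¹ h.right 1).union
    (lemU (h.left * (mk u)⁻¹) h.right h.right)).image fun q =>
      (⟨φ q (φ (h.right * q)⁻¹ (mk u)⁻¹), q⟩ : G)).subset fun x hx => ?_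
  have e : φ (h * x).right⁻¹ (h * x).left =
      φ (h.right * x.right)⁻¹ h.left * φ x.right⁻¹ x.left := by
    rw [SemidirectProduct.mul_left, SemidirectProduct.mul_right, map_mul, ← MulAut.mul_apply,
      ← map_mul, mul_inv_rev, inv_mul_cancel_right]
  obtain ⟨u, h1, h2⟩ : ∃ u, u <:+ h.left.toWord ∧
      φ x.right⁻¹ x.left = φ (h.right * x.right)⁻¹ (mk u)⁻¹ := by
    by_cases hl : lst (φ (h * x).right⁻¹ (h * x).left) = lst (φ x.right⁻¹ x.left)
    · rcases hz : lst (φ x.right⁻¹ x.left) with _ | z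
      · exact ⟨[], List.nil_suffix, by rw [lstn hz, ← one_eq_mk]; simp⟩
      · simp only [mem_ofPred_eq, f, F, hl, hz, Option.elim_some, sub_self, abs_zero] at hx
        norm_num at hx
    · rw [e, ← mk_toWord (x := h.left), phm] at hl
      obtain ⟨u, h1, h2⟩ := lemK _ _ hl
      obtain ⟨u, h3, rfl⟩ := List.suffix_map_iff.1 h1
      exact ⟨u, h3, by rw [h2, ← phm, map_inv (φ (h.right * x.right)⁻¹)]⟩
  refine mem_biUnion h1 ⟨x.right, by_contra fun h3 => not_le.2 (mem_ofPred_eq ▸ hx :) ?_, ?_⟩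
  · simp only [mem_union, mem_ofPred_eq, not_or, not_lt, one_mul] at h3
    unfold f
    rw [e, h2, ← map_mul, SemidirectProduct.mul_right]
    have := abs_sub_le (F (φ (h.right * x.right)⁻¹ (h.left * (mk u)⁻¹)) (h.right * x.right))
      (lam x.right) (F (φ (h.right * x.right)⁻¹ (mk u)⁻¹) x.right)
    rw [abs_sub_comm (lam _)] at this
    linarith [h3.1, h3.2]
  · ext
    · simp only [← h2]; simp
    · rfl

def a (n : ℕ) (i : ℝ) : G := SemidirectProduct.inl (of ⟨n, ((1 : Q) : Q ⧸ H n), i⟩)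

def b (n : ℕ) (i : ℝ) : G := SemidirectProduct.inr (of (n, i))

lemma ai (n) : Function.Injective (a n) := fun i j h => by
  simpa using of_injective (SemidirectProduct.inl_injective h)

lemma bi (n) : Function.Injective (b n) := fun i j h => by
  simpa using of_injective (SemidirectProduct.inr_injective h)

lemma conj (q : Q) (n : ℕ) (i : ℝ) : (SemidirectProduct.inl (of ⟨n, (q : Q ⧸ H n), i⟩) : G) =
    SemidirectProduct.inr q * a n i * SemidirectProduct.inr q⁻¹ := by
  rw [a, ← SemidirectProduct.inl_aut]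
  congr 1
  change _ = of (sm q _)
  simp [sm]

lemma ab {n m : ℕ} (h : m = n ∨ m = n + 1) (i j : ℝ) : a n i * b m j = b m j * a n i := by
  have := conj (of (m, j)) n i
  rw [map_inv, eq_mul_inv_iff_mul_eq, (QuotientGroup.eq (b := (1 : Q))).2] at this
  · exact this
  · rw [mul_one]
    exact (H n).inv_mem ⟨[((m, j), true)], by simpa using h, rfl⟩

lemma sob : SoBounded G := by
  intro g hg
  have c1 : ∀ n x c, Val g (a n) x c ↔ Val g (b n) x c := fun n x c =>
    ⟨val2 hg (ai n) (bi n) (ab (Or.inl rfl)), val2 hg (bi n) (ai n) fun j i => (ab (Or.inl rfl) _ _).symm⟩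
  have c2 : ∀ n x c, Val g (a n) x c ↔ Val g (b (n + 1)) x c := fun n x c =>
    ⟨val2 hg (ai n) (bi _) (ab (Or.inr rfl)), val2 hg (bi _) (ai n) fun j i => (ab (Or.inr rfl) _ _).symm⟩
  have c3 : ∀ n x c, Val g (b n) x c ↔ Val g (b 0) x c := fun n x c => by
    induction n with
    | zero => rfl
    | succ n ih => rw [← c2, c1, ih]
  obtain ⟨c, hc, -⟩ := val1 hg (ai 0) (bi 0) (ab (Or.inl rfl)) 1
  let S : Subgroup G :=
    { carrier := {h | ∀ x, Val g (b 0) (h * x) c ↔ Val g (b 0) x c}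
      one_mem' := fun x => by rw [one_mul]
      mul_mem' := fun h1 h2 x => by rw [mul_assoc, h1, h2]
      inv_mem' := fun {h} h1 x => by rw [← h1, mul_inv_cancel_left] }
  have s0 : ∀ (u : ℝ → G) (h : G), Function.Injective u → (∀ j, u j * h = h * u j) →
      (∀ x, Val g u x c ↔ Val g (b 0) x c) → h ∈ S := fun u h hu hc e x => by
    rw [← e, ← e]
    refine ⟨fun h1 => ?_, val3 hg hu hc⟩
    have := val3 hg hu (a := h⁻¹) (fun j => (Commute.inv_right (hc j) :)) h1
    rwa [inv_mul_cancel_left] at this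
  have s1 : ∀ q : Q, SemidirectProduct.inr q ∈ S := fun q => by
    induction q using FreeGroup.induction_on with
    | C1 => simp
    | of z => exact s0 (a z.1) _ (ai _) (fun j => ab (Or.inl rfl) _ _) fun x => by rw [c1, c3]
    | inv_of z h => rw [map_inv]; exact S.inv_mem h
    | mul x y h k => rw [map_mul]; exact S.mul_mem h k
  have s2 : ∀ k : FreeGroup X, SemidirectProduct.inl k ∈ S := fun k => by
    induction k using FreeGroup.induction_on with
    | C1 => simp
    | of z =>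
      obtain ⟨n, C, i⟩ := z
      rw [← C.out_eq', conj]
      exact S.mul_mem (S.mul_mem (s1 _) (s0 (b n) _ (bi _) (fun j => (ab (Or.inl rfl) _ _).symm)
        fun x => c3 _ _ _)) (s1 _)
    | inv_of z h => rw [map_inv]; exact S.inv_mem h
    | mul x y h k => rw [map_mul]; exact S.mul_mem h k
  refine fin1 hg (ai 0) (bi 0) (ab (Or.inl rfl)) (c := c) fun x => ?_
  have : x ∈ S := by
    rw [← SemidirectProduct.inl_left_mul_inr_right x]; exact S.mul_mem (s2 _) (s1 _)
  simpa using (this 1).2 hc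

theorem result : ∃ (Γ : Type) (_ : Group Γ), SoBounded Γ ∧ ¬ BoBounded Γ := by
  refine ⟨G, inferInstance, sob, fun h => ?_⟩
  obtain ⟨B, M, hM⟩ := h f ⟨5, by norm_num, fun T => by
    refine ⟨(T.finite_toSet.biUnion fun h _ => lemM h).toFinset, fun x hx => ?_⟩
    simp only [Finite.mem_toFinset, mem_iUnion, mem_ofPred_eq, not_exists, not_lt] at hx
    have : ∀ y ∈ f '' ball T x, |y - f x| ≤ 2 := by
      rintro _ ⟨y, rfl | ⟨h, hh, rfl⟩, rfl⟩
      · simp
      · exact hx h hh
    refine (Metric.diam_le_of_forall_dist_le (C := 4) (by norm_num) fun y hy z hz => ?_).trans_lt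
      (by norm_num)
    have h1 := abs_le.1 (this y hy)
    have h2 := abs_le.1 (this z hz)
    rw [Real.dist_eq, abs_le]
    constructor <;> linarith [h1.1, h1.2, h2.1, h2.2]⟩
  obtain ⟨n, hn⟩ := exists_nat_gt M
  obtain ⟨_, ⟨i, rfl⟩, hi⟩ := (infinite_range_of_injective (bi n)).exists_notMem_finset B
  have := hM _ hi
  simp [f, F, b, lam, lst] at this
  linarith

end Pool.Agent.Results.MP_769d7c_al.NotBo
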